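import Mathlib

/-! The subgroup lattice of the finite abelian group `(ℤ/4)³` has no lattice embedding into
the subspace lattice of any vector space over any division ring.  More generally the same
holds for every abelian group with a section `(ℤ/n)³`, `n` composite; and if `n` is not
squarefree there is not even an embedding into a product of subspace lattices over varying
division rings. -/

namespace Pool.Agent.Results.MP_0a2dc5_al.SubZ4Cubed

universe u v w t

section Lat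

variable {L : Type*} [Lattice L]

/-- The lattice polynomial `((((g ⊔ c) ⊓ (h ⊔ b)) ⊔ k) ⊓ (a ⊔ b))`. -/
def step (a b c h k g : L) : L := (((g ⊔ c) ⊓ (h ⊔ b)) ⊔ k) ⊓ (a ⊔ b)

end Lat

section Vec

variable {D V : Type*} [DivisionRing D] [AddCommGroup V] [Module D V]

/-- The graph relation. -/
def Rel (a b c h k : Submodule D V) (x y : V) : Prop :=
  x ∈ a ∧ y ∈ b ∧ ∃ z ∈ c, x + z ∈ h ∧ y - z ∈ k

lemma eq_of_inf_bot {p q : Submodule D V} (H : p ⊓ q = ⊥) {x : V} (hp : x ∈ p) (hq : x ∈ q) :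
    x = 0 := by
  have : x ∈ p ⊓ q := ⟨hp, hq⟩
  rw [H] at this
  simpa using this

lemma exists_rel {a b c h k : Submodule D V} (hac : a ≤ h ⊔ c) (hck : c ≤ k ⊔ b)
    {x : V} (hx : x ∈ a) : ∃ y, Rel a b c h k x y := by
  obtain ⟨η, hη, z', hz', e⟩ := Submodule.mem_sup.1 (hac hx)
  obtain ⟨κ, hκ, y, hy, e2⟩ := Submodule.mem_sup.1 (hck (c.neg_mem hz'))
  refine ⟨y, hx, hy, -z', c.neg_mem hz', ?_, ?_⟩
  · have : x + -z' = η := by rw [← e]; abel
    rw [this]; exact hη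
  · have : y - -z' = -κ := by
      rw [← e2]; abel
    rw [this]; exact k.neg_mem hκ

lemma step_mem {a b c h k X : Submodule D V} (hab : a ⊓ b = ⊥) (habc : (a ⊔ b) ⊓ c = ⊥)
    (hhc : h ⊓ c = ⊥) (hkb : k ⊓ b = ⊥) (hh : h ≤ a ⊔ c) (hk : k ≤ b ⊔ c) (n : ℕ)
    (hX : ∀ v, v ∈ X ↔ ∃ x y, Rel a b c h k x y ∧ v = x + n • y) (v : V) :
    v ∈ step a b c h k X ↔ ∃ x y, Rel a b c h k x y ∧ v = x + (n + 1) • y := by
  constructor
  · intro hv
    obtain ⟨h1, h2⟩ := hv
    obtain ⟨s, hs, κ, hκ, e⟩ := Submodule.mem_sup.1 h1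
    obtain ⟨hs1, hs2⟩ := hs
    obtain ⟨w, hw, z1, hz1, e1⟩ := Submodule.mem_sup.1 hs1
    obtain ⟨x, y, ⟨hx, hy, z0, hz0, hxz, hyz⟩, rfl⟩ := (hX w).1 hw
    obtain ⟨η, hη, β, hβ, e2⟩ := Submodule.mem_sup.1 hs2
    obtain ⟨x', hx', z', hz', e3⟩ := Submodule.mem_sup.1 (hh hη)
    obtain ⟨y'', hy'', z'', hz'', e4⟩ := Submodule.mem_sup.1 (hk hκ)
    have hny : n • y ∈ b := b.smul_of_tower_mem n hy
    -- independence
    have E : (x - x') + (n • y - β) = z' - z1 := by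
      have : x + n • y + z1 = x' + z' + β := by rw [e1, ← e2, e3]
      have h' : x + n • y = x' + z' + β - z1 := by rw [← this]; abel
      calc (x - x') + (n • y - β) = (x + n • y) - x' - β := by abel
        _ = z' - z1 := by rw [h']; abel
    have hE1 : (x - x') + (n • y - β) ∈ a ⊔ b :=
      Submodule.add_mem_sup (a.sub_mem hx hx') (b.sub_mem hny hβ)
    have hz : z' - z1 = 0 := by
      refine eq_of_inf_bot habc ?_ (c.sub_mem hz' hz1)
      rw [← E]; exact hE1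
    have hxx : x - x' = 0 := by
      refine eq_of_inf_bot hab (a.sub_mem hx hx') ?_
      have : x - x' = β - n • y := by
        have h5 : (x - x') + (n • y - β) = 0 := by rw [E, hz]
        have := eq_neg_of_add_eq_zero_left h5
        rw [this]; abel
      rw [this]; exact b.sub_mem hβ hny
    have hz1' : z' = z1 := sub_eq_zero.1 hz
    have hxx' : x = x' := sub_eq_zero.1 hxx
    subst hz1'
    subst hxx'
    -- uniqueness of z
    have hz0' : z' - z0 = 0 := by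
      refine eq_of_inf_bot hhc ?_ (c.sub_mem hz' hz0)
      have : z' - z0 = (x + z') - (x + z0) := by abel
      rw [this]
      refine h.sub_mem ?_ hxz
      rw [e3]; exact hη
    have hz0'' : z' = z0 := sub_eq_zero.1 hz0'
    subst hz0''
    -- determination of z''
    have hzz : z' + z'' = 0 := by
      refine eq_of_inf_bot habc ?_ (c.add_mem hz' hz'')
      have : z' + z'' = v - (x + (n • y + y'')) := by
        rw [← e, ← e1, ← e4]; abel
      rw [this]
      exact (a ⊔ b).sub_mem h2 (Submodule.add_mem_sup hx (b.add_mem hny hy''))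
    have hzz' : z'' = -z' := (neg_eq_of_add_eq_zero_right hzz).symm
    subst hzz'
    have hyy : y'' - y = 0 := by
      refine eq_of_inf_bot hkb ?_ (b.sub_mem hy'' hy)
      have : y'' - y = κ - (y - z') := by rw [← e4]; abel
      rw [this]
      exact k.sub_mem hκ hyz
    have hyy' : y'' = y := sub_eq_zero.1 hyy
    subst hyy'
    refine ⟨x, y'', ⟨hx, hy, z', hz', hxz, hyz⟩, ?_⟩
    rw [← e, ← e1, ← e4, succ_nsmul]; abel
  · rintro ⟨x, y, ⟨hx, hy, z, hz, hxz, hyz⟩, rfl⟩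
    have hny : n • y ∈ b := b.smul_of_tower_mem n hy
    refine ⟨?_, Submodule.add_mem_sup hx (b.smul_of_tower_mem (n + 1) hy)⟩
    have : x + (n + 1) • y = (x + n • y + z) + (y - z) := by rw [succ_nsmul]; abel
    rw [this]
    refine Submodule.add_mem_sup ⟨?_, ?_⟩ hyz
    · exact Submodule.add_mem_sup ((hX _).2 ⟨x, y, ⟨hx, hy, z, hz, hxz, hyz⟩, rfl⟩) hz
    · have : x + n • y + z = (x + z) + n • y := by abel
      rw [this]
      exact Submodule.add_mem_sup hxz hny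

/-- The frame-like configuration with bottom element `o`. -/
structure Conf {L : Type*} [Lattice L] (o a b c h k : L) : Prop where
  hab : a ⊓ b = o
  habc : (a ⊔ b) ⊓ c = o
  hhc : h ⊓ c = o
  hkb : k ⊓ b = o
  hh : h ≤ a ⊔ c
  hk : k ≤ b ⊔ c
  hac : a ≤ h ⊔ c
  hck : c ≤ k ⊔ b

lemma iter_mem {a b c h k : Submodule D V} (C : Conf ⊥ a b c h k) (n : ℕ) :
    ∀ v, v ∈ (step a b c h k)^[n] a ↔ ∃ x y, Rel a b c h k x y ∧ v = x + n • y := by
  induction n with
  | zero =>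
    intro v
    simp only [Function.iterate_zero, id_eq, zero_smul, add_zero]
    constructor
    · intro hv
      obtain ⟨y, hy⟩ := exists_rel (b := b) C.hac C.hck hv
      exact ⟨v, y, hy, rfl⟩
    · rintro ⟨x, y, hR, rfl⟩
      exact hR.1
  | succ n ih =>
    rw [Function.iterate_succ_apply']
    exact step_mem C.hab C.habc C.hhc C.hkb C.hh C.hk n ih

lemma rel_smul {a b c h k : Submodule D V} (C : Conf ⊥ a b c h k) {n : ℕ}
    (hn : (step a b c h k)^[n] a = a) {x y : V} (hR : Rel a b c h k x y) : n • y = 0 := by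
  have X := iter_mem C n
  rw [hn] at X
  have h1 : x + n • y ∈ a := (X _).2 ⟨x, y, hR, rfl⟩
  refine eq_of_inf_bot C.hab ?_ (b.smul_of_tower_mem n hR.2.1)
  have : n • y = (x + n • y) - x := by abel
  rw [this]
  exact a.sub_mem h1 hR.1

lemma iter_eq {a b c h k : Submodule D V} (C : Conf ⊥ a b c h k) {m : ℕ}
    (H : ∀ x y, Rel a b c h k x y → m • y = 0) : (step a b c h k)^[m] a = a := by
  ext v
  rw [iter_mem C m v]
  constructor
  · rintro ⟨x, y, hR, rfl⟩
    rw [H x y hR, add_zero]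
    exact hR.1
  · intro hv
    obtain ⟨y, hy⟩ := exists_rel (b := b) C.hac C.hck hv
    exact ⟨v, y, hy, by rw [H v y hy, add_zero]⟩

/-- In a subspace lattice, if the `n`-th iterate is `a` then some `p`-th iterate is `a`, where
`p` is `1` or a prime divisor of `n`, and so is every `m`-th iterate with `p ∣ m`. -/
lemma key {a b c h k : Submodule D V} (C : Conf ⊥ a b c h k) {n : ℕ} (hn0 : n ≠ 0)
    (hn : (step a b c h k)^[n] a = a) :
    ∃ p : ℕ, (p = 1 ∨ (p.Prime ∧ p ∣ n)) ∧ ∀ m, p ∣ m → (step a b c h k)^[m] a = a := by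
  by_cases hall : ∀ x y, Rel a b c h k x y → y = 0
  · refine ⟨1, Or.inl rfl, fun m _ => iter_eq C fun x y hR => ?_⟩
    rw [hall x y hR, smul_zero]
  · push Not at hall
    obtain ⟨x, y, hR, hy⟩ := hall
    have h1 := rel_smul C hn hR
    have h2 : (n : D) = 0 := by
      rw [← Nat.cast_smul_eq_nsmul D] at h1
      exact (smul_eq_zero.1 h1).resolve_right hy
    have h3 : ringChar D ∣ n := (ringChar.spec D n).1 h2
    have h4 : (ringChar D).Prime := by
      rcases CharP.char_is_prime_or_zero D (ringChar D) with h | h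
      · exact h
      · rw [h] at h3
        exact absurd (Nat.eq_zero_of_zero_dvd h3) hn0
    refine ⟨ringChar D, Or.inr ⟨h4, h3⟩, fun m hm => iter_eq C fun x y _ => ?_⟩
    have h5 : (m : D) = 0 := (ringChar.spec D m).2 hm
    rw [← Nat.cast_smul_eq_nsmul D, h5, zero_smul]

/-- Transfer along a lattice homomorphism, without assuming that the bottom goes to zero. -/
lemma transfer {L : Type*} [Lattice L] [OrderBot L] (f : LatticeHom L (Submodule D V))
    {a b c h k : L} (C : Conf ⊥ a b c h k) {n : ℕ} (hn0 : n ≠ 0)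
    (hn : (step a b c h k)^[n] a = a) :
    ∃ p : ℕ, (p = 1 ∨ (p.Prime ∧ p ∣ n)) ∧
      ∀ m, p ∣ m → f ((step a b c h k)^[m] a) = f a := by
  have hle : ∀ x, f ⊥ ≤ f x := fun x => OrderHomClass.mono f bot_le
  have hcm : ∀ x, Submodule.comap (f ⊥).mkQ (Submodule.map (f ⊥).mkQ (f x)) = f x := by
    intro x
    rw [Submodule.comap_map_mkQ]
    exact sup_eq_right.2 (hle x)
  set F : L → Submodule D (V ⧸ f ⊥) := fun x => Submodule.map (f ⊥).mkQ (f x) with hF
  have Fsup : ∀ x y, F (x ⊔ y) = F x ⊔ F y := by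
    intro x y
    simp only [hF]
    rw [map_sup, Submodule.map_sup]
  have Finf : ∀ x y, F (x ⊓ y) = F x ⊓ F y := by
    intro x y
    apply Submodule.comap_injective_of_surjective (Submodule.mkQ_surjective (f ⊥))
    rw [Submodule.comap_inf]
    simp only [hF]
    rw [hcm, hcm, hcm, map_inf]
  have Fbot : F ⊥ = ⊥ := by
    simp only [hF]
    exact Submodule.mkQ_map_self _
  have Fmono : ∀ {x y}, x ≤ y → F x ≤ F y := by
    intro x y hxy
    exact Submodule.map_mono (OrderHomClass.mono f hxy)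
  have Fstep : ∀ g, F (step a b c h k g) = step (F a) (F b) (F c) (F h) (F k) (F g) := by
    intro g
    simp only [step, Fsup, Finf]
  have Fiter : ∀ m, F ((step a b c h k)^[m] a)
      = (step (F a) (F b) (F c) (F h) (F k))^[m] (F a) := by
    intro m
    induction m with
    | zero => rfl
    | succ m ih => rw [Function.iterate_succ_apply', Function.iterate_succ_apply', Fstep, ih]
  have C' : Conf ⊥ (F a) (F b) (F c) (F h) (F k) := by
    refine ⟨?_, ?_, ?_, ?_, ?_, ?_, ?_, ?_⟩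
    · rw [← Finf, C.hab, Fbot]
    · rw [← Fsup, ← Finf, C.habc, Fbot]
    · rw [← Finf, C.hhc, Fbot]
    · rw [← Finf, C.hkb, Fbot]
    · rw [← Fsup]; exact Fmono C.hh
    · rw [← Fsup]; exact Fmono C.hk
    · rw [← Fsup]; exact Fmono C.hac
    · rw [← Fsup]; exact Fmono C.hck
  obtain ⟨p, hp, H⟩ := key C' hn0 (by rw [← Fiter, hn])
  refine ⟨p, hp, fun m hm => ?_⟩
  have := H m hm
  rw [← Fiter] at this
  rw [← hcm ((step a b c h k)^[m] a), ← hcm a]
  simp only [hF] at this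
  rw [this]

end Vec

section Grp

variable (R : Type*) [CommRing R]

/-- The subgroup `⟨e₁⟩`. -/
def sA : AddSubgroup (R × R × R) where
  carrier := {v | v.2.1 = 0 ∧ v.2.2 = 0}
  add_mem' := by
    rintro ⟨x, y, z⟩ ⟨x', y', z'⟩ ⟨h1, h2⟩ ⟨h3, h4⟩
    simp_all
  zero_mem' := by simp
  neg_mem' := by
    rintro ⟨x, y, z⟩ ⟨h1, h2⟩
    simp_all

/-- The subgroup `⟨e₂⟩`. -/
def sB : AddSubgroup (R × R × R) where
  carrier := {v | v.1 = 0 ∧ v.2.2 = 0}
  add_mem' := by
    rintro ⟨x, y, z⟩ ⟨x', y', z'⟩ ⟨h1, h2⟩ ⟨h3, h4⟩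
    simp_all
  zero_mem' := by simp
  neg_mem' := by
    rintro ⟨x, y, z⟩ ⟨h1, h2⟩
    simp_all

/-- The subgroup `⟨e₃⟩`. -/
def sC : AddSubgroup (R × R × R) where
  carrier := {v | v.1 = 0 ∧ v.2.1 = 0}
  add_mem' := by
    rintro ⟨x, y, z⟩ ⟨x', y', z'⟩ ⟨h1, h2⟩ ⟨h3, h4⟩
    simp_all
  zero_mem' := by simp
  neg_mem' := by
    rintro ⟨x, y, z⟩ ⟨h1, h2⟩
    simp_all

/-- The subgroup `⟨e₁ + e₃⟩`. -/
def sH : AddSubgroup (R × R × R) where
  carrier := {v | v.2.1 = 0 ∧ v.1 = v.2.2}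
  add_mem' := by
    rintro ⟨x, y, z⟩ ⟨x', y', z'⟩ ⟨h1, h2⟩ ⟨h3, h4⟩
    simp_all
  zero_mem' := by simp
  neg_mem' := by
    rintro ⟨x, y, z⟩ ⟨h1, h2⟩
    simp_all

/-- The subgroup `⟨e₂ - e₃⟩`. -/
def sK : AddSubgroup (R × R × R) where
  carrier := {v | v.1 = 0 ∧ v.2.1 + v.2.2 = 0}
  add_mem' := by
    rintro ⟨x, y, z⟩ ⟨x', y', z'⟩ ⟨h1, h2⟩ ⟨h3, h4⟩
    simp only [Set.mem_ofPred_eq, Prod.mk_add_mk] at *
    exact ⟨by linear_combination h1 + h3, by linear_combination h2 + h4⟩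
  zero_mem' := by simp
  neg_mem' := by
    rintro ⟨x, y, z⟩ ⟨h1, h2⟩
    simp only [Set.mem_ofPred_eq, Prod.neg_mk] at *
    exact ⟨by linear_combination -h1, by linear_combination -h2⟩

/-- The subgroup `⟨e₁ + r e₂⟩`. -/
def sG (r : R) : AddSubgroup (R × R × R) where
  carrier := {v | v.2.2 = 0 ∧ v.2.1 = r * v.1}
  add_mem' := by
    rintro ⟨x, y, z⟩ ⟨x', y', z'⟩ ⟨h1, h2⟩ ⟨h3, h4⟩
    simp only [Set.mem_ofPred_eq, Prod.mk_add_mk] at *
    exact ⟨by linear_combination h1 + h3, by linear_combination h2 + h4⟩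
  zero_mem' := by simp
  neg_mem' := by
    rintro ⟨x, y, z⟩ ⟨h1, h2⟩
    simp only [Set.mem_ofPred_eq, Prod.neg_mk] at *
    exact ⟨by linear_combination -h1, by linear_combination -h2⟩

variable {R}

lemma mem_sA {v : R × R × R} : v ∈ sA R ↔ v.2.1 = 0 ∧ v.2.2 = 0 := Iff.rfl
lemma mem_sB {v : R × R × R} : v ∈ sB R ↔ v.1 = 0 ∧ v.2.2 = 0 := Iff.rfl
lemma mem_sC {v : R × R × R} : v ∈ sC R ↔ v.1 = 0 ∧ v.2.1 = 0 := Iff.rfl
lemma mem_sH {v : R × R × R} : v ∈ sH R ↔ v.2.1 = 0 ∧ v.1 = v.2.2 := Iff.rfl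
lemma mem_sK {v : R × R × R} : v ∈ sK R ↔ v.1 = 0 ∧ v.2.1 + v.2.2 = 0 := Iff.rfl
lemma mem_sG {r : R} {v : R × R × R} : v ∈ sG R r ↔ v.2.2 = 0 ∧ v.2.1 = r * v.1 := Iff.rfl

lemma mem_AB {v : R × R × R} : v ∈ sA R ⊔ sB R ↔ v.2.2 = 0 := by
  rw [AddSubgroup.mem_sup]
  constructor
  · rintro ⟨p, ⟨h1, h2⟩, q, ⟨h3, h4⟩, rfl⟩
    simp [h2, h4]
  · intro h
    obtain ⟨x, y, z⟩ := v
    exact ⟨(x, 0, 0), ⟨rfl, rfl⟩, (0, y, 0), ⟨rfl, rfl⟩, by simpa using h.symm⟩

lemma mem_GC {r : R} {v : R × R × R} : v ∈ sG R r ⊔ sC R ↔ v.2.1 = r * v.1 := by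
  rw [AddSubgroup.mem_sup]
  constructor
  · rintro ⟨p, ⟨h1, h2⟩, q, ⟨h3, h4⟩, rfl⟩
    simp [h2, h3, h4]
  · intro h
    obtain ⟨x, y, z⟩ := v
    exact ⟨(x, r * x, 0), ⟨rfl, rfl⟩, (0, 0, z), ⟨rfl, rfl⟩, by simpa using h.symm⟩

lemma mem_HB {v : R × R × R} : v ∈ sH R ⊔ sB R ↔ v.1 = v.2.2 := by
  rw [AddSubgroup.mem_sup]
  constructor
  · rintro ⟨p, ⟨h1, h2⟩, q, ⟨h3, h4⟩, rfl⟩
    simp [h2, h3, h4]
  · intro h
    obtain ⟨x, y, z⟩ := v
    exact ⟨(x, 0, x), ⟨rfl, rfl⟩, (0, y, 0), ⟨rfl, rfl⟩, by simpa using h⟩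

lemma step_sG (r : R) : step (sA R) (sB R) (sC R) (sH R) (sK R) (sG R r) = sG R (r + 1) := by
  ext v
  rw [step, AddSubgroup.mem_inf, mem_AB, AddSubgroup.mem_sup, mem_sG]
  constructor
  · rintro ⟨⟨s, hs, κ, ⟨h3, h4⟩, rfl⟩, h5⟩
    rw [AddSubgroup.mem_inf, mem_GC, mem_HB] at hs
    obtain ⟨h1, h2⟩ := hs
    refine ⟨h5, ?_⟩
    simp only [Prod.fst_add, Prod.snd_add] at *
    linear_combination h1 - h2 + h4 - h5 - (r + 1) * h3
  · intro h
    obtain ⟨x, y, z⟩ := v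
    obtain ⟨h1, h2⟩ := h
    simp only at h1 h2
    refine ⟨⟨(x, r * x, x), ?_, (0, x, -x), ⟨rfl, by simp⟩, ?_⟩, h1⟩
    · rw [AddSubgroup.mem_inf, mem_GC, mem_HB]
      exact ⟨rfl, rfl⟩
    · rw [h1, h2]
      ext <;> simp; ring

lemma sG_zero : sG R 0 = sA R := by
  ext v
  rw [mem_sG, mem_sA]
  constructor
  · rintro ⟨h1, h2⟩
    exact ⟨by simpa using h2, h1⟩
  · rintro ⟨h1, h2⟩
    exact ⟨h2, by simpa using h1⟩

lemma iter_sA (m : ℕ) :
    (step (sA R) (sB R) (sC R) (sH R) (sK R))^[m] (sA R) = sG R (m : R) := by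
  induction m with
  | zero => simp [sG_zero]
  | succ m ih => rw [Function.iterate_succ_apply', ih, step_sG]; push_cast; rfl

lemma sG_eq {r : R} (h : sG R r = sA R) : r = 0 := by
  have h1 : ((1, r, 0) : R × R × R) ∈ sG R r := ⟨rfl, by simp⟩
  rw [h] at h1
  exact h1.1

lemma conf : Conf ⊥ (sA R) (sB R) (sC R) (sH R) (sK R) := by
  refine ⟨?_, ?_, ?_, ?_, ?_, ?_, ?_, ?_⟩
  · rw [eq_bot_iff]
    rintro ⟨x, y, z⟩ ⟨⟨h1, h2⟩, ⟨h3, h4⟩⟩
    simp_all
  · rw [eq_bot_iff]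
    rintro ⟨x, y, z⟩ ⟨h0, ⟨h3, h4⟩⟩
    have h1 := mem_AB.1 h0
    simp_all
  · rw [eq_bot_iff]
    rintro ⟨x, y, z⟩ ⟨⟨h1, h2⟩, ⟨h3, h4⟩⟩
    simp_all
  · rw [eq_bot_iff]
    rintro ⟨x, y, z⟩ ⟨⟨h1, h2⟩, ⟨h3, h4⟩⟩
    simp_all
  · rintro ⟨x, y, z⟩ ⟨h1, h2⟩
    rw [AddSubgroup.mem_sup]
    exact ⟨(x, 0, 0), ⟨rfl, rfl⟩, (0, 0, z), ⟨rfl, rfl⟩, by simpa using h1.symm⟩
  · rintro ⟨x, y, z⟩ ⟨h1, h2⟩
    rw [AddSubgroup.mem_sup]
    exact ⟨(0, y, 0), ⟨rfl, rfl⟩, (0, 0, z), ⟨rfl, rfl⟩, by simpa using h1.symm⟩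
  · rintro ⟨x, y, z⟩ ⟨h1, h2⟩
    rw [AddSubgroup.mem_sup]
    exact ⟨(x, 0, x), ⟨rfl, rfl⟩, (0, 0, -x), ⟨rfl, rfl⟩, by
      simp only at h1 h2; rw [h1, h2]; simp⟩
  · rintro ⟨x, y, z⟩ ⟨h1, h2⟩
    rw [AddSubgroup.mem_sup]
    exact ⟨(0, -z, z), ⟨rfl, by simp⟩, (0, z, 0), ⟨rfl, rfl⟩, by
      simp only at h1 h2; rw [h1, h2]; simp⟩

end Grp

section Sec

variable {A : Type*} [AddCommGroup A] {Q : Type*} [AddCommGroup Q]

/-- The subgroup lattice of a section of `A` embeds in that of `A`. -/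
def secHom (B : AddSubgroup A) (π : B →+ Q) (hπ : Function.Surjective π) :
    LatticeHom (AddSubgroup Q) (AddSubgroup A) where
  toFun H := (H.comap π).map B.subtype
  map_sup' H K := by
    rw [← AddSubgroup.map_sup, AddSubgroup.comap_sup_eq _ _ _ hπ]
  map_inf' H K := by
    rw [AddSubgroup.comap_inf, AddSubgroup.map_inf _ _ _ B.subtype_injective]

lemma secHom_injective (B : AddSubgroup A) (π : B →+ Q) (hπ : Function.Surjective π) :
    Function.Injective (secHom B π hπ) := by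
  intro H K h
  exact AddSubgroup.comap_injective hπ (AddSubgroup.map_injective B.subtype_injective h)

end Sec

lemma single (n : ℕ) (hn : 1 < n) (hp : ¬ n.Prime) {D : Type u} [DivisionRing D]
    {V : Type v} [AddCommGroup V] [Module D V]
    (f : LatticeHom (AddSubgroup (ZMod n × ZMod n × ZMod n)) (Submodule D V)) :
    ¬ Function.Injective f := by
  intro hf
  have h4 : (step (sA (ZMod n)) (sB (ZMod n)) (sC (ZMod n)) (sH (ZMod n)) (sK (ZMod n)))^[n]
      (sA (ZMod n)) = sA (ZMod n) := by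
    rw [iter_sA, ZMod.natCast_self, sG_zero]
  obtain ⟨p, hp1, H⟩ := transfer f conf (by omega) h4
  have h5 := hf (H p dvd_rfl)
  rw [iter_sA] at h5
  have h6 : n ∣ p := (ZMod.natCast_eq_zero_iff p n).1 (sG_eq h5)
  rcases hp1 with rfl | ⟨hp1, hp2⟩
  · have := Nat.le_of_dvd one_pos h6
    omega
  · exact hp (by rwa [Nat.dvd_antisymm h6 hp2])

lemma product (n : ℕ) (hsq : ¬ Squarefree n) (hn : 1 < n)
    {ι : Type t} {D : ι → Type u} [∀ i, DivisionRing (D i)]
    {V : ι → Type v} [∀ i, AddCommGroup (V i)] [∀ i, Module (D i) (V i)]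
    (f : LatticeHom (AddSubgroup (ZMod n × ZMod n × ZMod n)) (∀ i, Submodule (D i) (V i))) :
    ¬ Function.Injective f := by
  intro hf
  have h4 : (step (sA (ZMod n)) (sB (ZMod n)) (sC (ZMod n)) (sH (ZMod n)) (sK (ZMod n)))^[n]
      (sA (ZMod n)) = sA (ZMod n) := by
    rw [iter_sA, ZMod.natCast_self, sG_zero]
  rw [Nat.squarefree_iff_prime_squarefree] at hsq
  push Not at hsq
  obtain ⟨q, hq, m, hm⟩ := hsq
  have key2 : f ((step (sA (ZMod n)) (sB (ZMod n)) (sC (ZMod n)) (sH (ZMod n))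
      (sK (ZMod n)))^[q * m] (sA (ZMod n))) = f (sA (ZMod n)) := by
    funext i
    let fi : LatticeHom (AddSubgroup (ZMod n × ZMod n × ZMod n)) (Submodule (D i) (V i)) :=
      { toFun := fun x => f x i
        map_sup' := fun x y => by rw [map_sup]; rfl
        map_inf' := fun x y => by rw [map_inf]; rfl }
    obtain ⟨p, hp1, H⟩ := transfer fi conf (by omega) h4
    refine H (q * m) ?_
    rcases hp1 with rfl | ⟨hp1, hp2⟩
    · exact one_dvd _
    · rw [hm, mul_assoc] at hp2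
      rcases hp1.dvd_mul.1 hp2 with h | h
      · exact h.mul_right m
      · exact h
  have h5 := hf key2
  rw [iter_sA] at h5
  have h6 : n ∣ q * m := (ZMod.natCast_eq_zero_iff _ n).1 (sG_eq h5)
  have hm0 : 0 < q * m := by
    rcases Nat.eq_zero_or_pos (q * m) with h | h
    · rw [hm, mul_assoc, h, mul_zero] at hn
      omega
    · exact h
  have h7 := Nat.le_of_dvd hm0 h6
  have h8 : n = q * (q * m) := by rw [hm]; ring
  have h9 := hq.two_le
  nlinarith

/-- **Main theorem.**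
(1) The subgroup lattice of the finite abelian group `(ℤ/4)³` has no lattice embedding into
the subspace lattice of any vector space over any division ring.
(2) More generally this is so for every abelian group `A` that has `(ℤ/n)³` as a quotient of a
subgroup `B`, with `n > 1` not prime.
(3) If moreover `n` is not squarefree, there is not even a lattice embedding into a product of
subspace lattices of vector spaces over (varying) division rings. -/
theorem result :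
    (Finite (ZMod 4 × ZMod 4 × ZMod 4) ∧
      ∀ (D : Type u) [DivisionRing D] (V : Type v) [AddCommGroup V] [Module D V]
        (f : LatticeHom (AddSubgroup (ZMod 4 × ZMod 4 × ZMod 4)) (Submodule D V)),
        ¬ Function.Injective f) ∧
    (∀ (A : Type w) [AddCommGroup A] (B : AddSubgroup A) (n : ℕ)
        (π : B →+ ZMod n × ZMod n × ZMod n), Function.Surjective π → 1 < n → ¬ n.Prime →
      ∀ (D : Type u) [DivisionRing D] (V : Type v) [AddCommGroup V] [Module D V]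
        (f : LatticeHom (AddSubgroup A) (Submodule D V)), ¬ Function.Injective f) ∧
    (∀ (A : Type w) [AddCommGroup A] (B : AddSubgroup A) (n : ℕ)
        (π : B →+ ZMod n × ZMod n × ZMod n), Function.Surjective π → 1 < n → ¬ Squarefree n →
      ∀ (ι : Type t) (D : ι → Type u) [∀ i, DivisionRing (D i)]
        (V : ι → Type v) [∀ i, AddCommGroup (V i)] [∀ i, Module (D i) (V i)]
        (f : LatticeHom (AddSubgroup A) (∀ i, Submodule (D i) (V i))),
        ¬ Function.Injective f) := by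
  refine ⟨⟨inferInstance, ?_⟩, ?_, ?_⟩
  · intro D _ V _ _ f
    exact single 4 (by norm_num) (by norm_num) f
  · intro A _ B n π hπ hn hp D _ V _ _ f hf
    exact single n hn hp (f.comp (secHom B π hπ)) (hf.comp (secHom_injective B π hπ))
  · intro A _ B n π hπ hn hsq ι D _ V _ _ f hf
    exact product n hsq hn (f.comp (secHom B π hπ)) (hf.comp (secHom_injective B π hπ))

end Pool.Agent.Results.MP_0a2dc5_al.SubZ4Cubed
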